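import Pool.Agent.helper62.RS.SpecQ
import Pool.Agent.helper62.QU.All

/-!
# Row rs:QEX (MP_07c750_an): exponential moments
-/

set_option autoImplicit false

open scoped MatrixGroups ContDiff Topology UpperHalfPlane ComplexConjugate
open UpperHalfPlane MeasureTheory Filter Set

namespace Pool.Agent.RS

theorem QEX_cont (hGLC : GLC_stmt) (h : ℍ → ℝ) (hh : Continuous h) (g : SL(2, ℝ)) :
    Continuous fun p : ℝ × ℝ => h ((g * lM p.1 * aM p.2) • I) := by
  obtain ⟨-, -, -, haM, -, hlM, -⟩ := hGLC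
  have h1 : Continuous fun p : ℝ × ℝ => g * lM p.1 * aM p.2 :=
    (continuous_const.mul (hlM.comp continuous_fst)).mul (haM.comp continuous_snd)
  exact hh.comp (h1.smul continuous_const)

theorem QEX_cont2 (hGLC : GLC_stmt) (h : ℍ → ℝ) (hh : Continuous h) (g : SL(2, ℝ)) (v : ℝ) :
    Continuous fun t : ℝ => h ((g * lM v * aM t) • I) := by
  obtain ⟨-, -, -, haM, -⟩ := hGLC
  have h1 : Continuous fun t : ℝ => g * lM v * aM t := continuous_const.mul haM
  exact hh.comp (h1.smul continuous_const)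

theorem QEX_Jc (hGLC : GLC_stmt) (h : ℍ → ℝ) (hh : Continuous h) (g : SL(2, ℝ)) (T : ℝ) :
    Continuous fun v : ℝ => ∫ t in (0 : ℝ)..T, h ((g * lM v * aM t) • I) := by
  have h1 : Continuous (Function.uncurry fun (v t : ℝ) => h ((g * lM v * aM t) • I)) :=
    QEX_cont hGLC h hh g
  exact intervalIntegral.continuous_parametric_intervalIntegral_of_continuous' h1 0 T

theorem QEX_lin (J : ℝ → ℝ) (hJ : Continuous J) (a θ : ℝ) :
    ∫ v in (0 : ℝ)..1, (a + θ * J v) = a + θ * ∫ v in (0 : ℝ)..1, J v := by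
  have h1 : IntervalIntegrable (fun v => θ * J v) volume 0 1 :=
    (continuous_const.mul hJ).intervalIntegrable _ _
  have h2 : IntervalIntegrable (fun _ : ℝ => a) volume 0 1 := continuous_const.intervalIntegrable _ _
  rw [intervalIntegral.integral_add h2 h1, intervalIntegral.integral_const,
    intervalIntegral.integral_const_mul, sub_zero, one_smul]

theorem QEX_Jb (h : ℍ → ℝ) (g : SL(2, ℝ)) (H S T v : ℝ)
    (hST : S ≤ T) (hH : ∀ z, |h z| ≤ H) :
    |∫ t in S..T, h ((g * lM v * aM t) • I)| ≤ H * (T - S) := by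
  have h1 := intervalIntegral.norm_integral_le_of_norm_le_const (a := S) (b := T) (C := H)
    (f := fun t => h ((g * lM v * aM t) • I)) fun t _ => hH _
  rw [abs_of_nonneg (sub_nonneg.mpr hST), Real.norm_eq_abs] at h1
  exact h1

/-- the distortion along the unstable horocycle -/
theorem QEX_dist (hGLC : GLC_stmt) (h : ℍ → ℝ) (hh : Continuous h) (L1 : SL(2, ℝ) → ℝ) (B : ℝ)
    (hL : ∀ g, HasDerivAt (fun t => h ((g * lM t) • I)) (L1 g) 0) (hB : ∀ g, |L1 g| ≤ B)
    (m : ℕ) (hm : 2 ≤ m) (g : SL(2, ℝ)) (v v' : ℝ) (hv : |v - v'| ≤ (m : ℝ)⁻¹) :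
    |(∫ t in (0 : ℝ)..Real.log m, h ((g * lM v * aM t) • I)) -
      ∫ t in (0 : ℝ)..Real.log m, h ((g * lM v' * aM t) • I)| ≤ B := by
  have hG := hGLC
  obtain ⟨-, -, -, haM, -, hlM, -, -, -, -, -, -, hlMadd, -, -, -, -, -, hla, -⟩ := hG
  have hB0 : 0 ≤ B := (abs_nonneg _).trans (hB 1)
  have hm1 : (1 : ℝ) < m := by exact_mod_cast (by omega : 1 < m)
  have hm0 : (0 : ℝ) < m := by linarith
  have hlog : 0 ≤ Real.log m := Real.log_nonneg hm1.le
  -- Lipschitz along `lM`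
  have hder : ∀ (k : SL(2, ℝ)) (u : ℝ), HasDerivAt (fun t => h ((k * lM t) • I)) (L1 (k * lM u)) u := by
    intro k u
    have h1 := (hL (k * lM u))
    have h2 : HasDerivAt (fun t => h ((k * lM u * lM (t - u)) • I)) (L1 (k * lM u)) u := by
      have h4 : HasDerivAt (fun t => h ((k * lM u * lM t) • I)) (L1 (k * lM u)) (u - u) := by
        rw [sub_self]
        exact h1
      exact HasDerivAt.comp_sub_const u u h4
    refine h2.congr_of_eventuallyEq (Eventually.of_forall fun t => ?_)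
    show h ((k * lM t) • I) = h ((k * lM u * lM (t - u)) • I)
    rw [mul_assoc, ← hlMadd, add_sub_cancel]
  have hlip : ∀ (k : SL(2, ℝ)) (u : ℝ), |h ((k * lM u) • I) - h (k • I)| ≤ B * |u| := by
    intro k u
    have h1 := Convex.norm_image_sub_le_of_norm_hasDerivWithin_le (𝕜 := ℝ)
      (f := fun t => h ((k * lM t) • I)) (f' := fun t => L1 (k * lM t)) (s := univ) (x := 0) (y := u)
      (C := B) (fun x _ => (hder k x).hasDerivWithinAt) (fun x _ => hB _) convex_univ
      (mem_univ _) (mem_univ _)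
    have h0 : lM 0 = 1 := by
      ext i j
      fin_cases i <;> fin_cases j <;> simp [lM]
    simp only [h0, mul_one, sub_zero, Real.norm_eq_abs] at h1
    exact h1
  have hpt : ∀ t, |h ((g * lM v * aM t) • I) - h ((g * lM v' * aM t) • I)| ≤
      B * (Real.exp t * (m : ℝ)⁻¹) := by
    intro t
    have h1 : g * lM v * aM t = g * lM v' * aM t * lM (Real.exp t * (v - v')) := by
      rw [mul_assoc (g * lM v') (aM t), ← hla, mul_assoc g (lM v'), ← mul_assoc (lM v'),
        ← hlMadd, add_sub_cancel, mul_assoc]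
    rw [h1]
    refine (hlip _ _).trans (mul_le_mul_of_nonneg_left ?_ hB0)
    rw [abs_mul, abs_of_pos (Real.exp_pos t)]
    exact mul_le_mul_of_nonneg_left hv (Real.exp_pos t).le
  have hc1 := QEX_cont2 hGLC h hh g v
  have hc2 := QEX_cont2 hGLC h hh g v'
  rw [← intervalIntegral.integral_sub (hc1.intervalIntegrable _ _) (hc2.intervalIntegrable _ _)]
  have h3 : |∫ t in (0 : ℝ)..Real.log m, (h ((g * lM v * aM t) • I) -
      h ((g * lM v' * aM t) • I))| ≤ ∫ t in (0 : ℝ)..Real.log m, B * (Real.exp t * (m : ℝ)⁻¹) := by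
    refine (intervalIntegral.abs_integral_le_integral_abs hlog).trans ?_
    refine intervalIntegral.integral_mono_on hlog ((hc1.sub hc2).abs.intervalIntegrable _ _)
      (Continuous.intervalIntegrable (by fun_prop) _ _) fun t _ => hpt t
  refine h3.trans ?_
  rw [intervalIntegral.integral_const_mul, intervalIntegral.integral_mul_const, integral_exp,
    Real.exp_log hm0, Real.exp_zero]
  have h4 : ((m : ℝ) - 1) * (m : ℝ)⁻¹ ≤ 1 := by
    rw [← div_eq_mul_inv, div_le_one hm0]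
    linarith
  calc B * (((m : ℝ) - 1) * (m : ℝ)⁻¹) ≤ B * 1 := mul_le_mul_of_nonneg_left h4 hB0
    _ = B := mul_one B

theorem QEX_exp {x : ℝ} (hx : |x| ≤ 1) : Real.exp x ≤ 1 + x + x ^ 2 := by
  have h1 := (abs_le.mp (Real.abs_exp_sub_one_sub_id_le hx)).2
  linarith

theorem QEX_core (hGLC : GLC_stmt) (hGBD : GBD_stmt) (hQDV : QDV_stmt) (hQEQ : QEQ_stmt)
    (hQRC : QRC_stmt) (Γ : Subgroup SL(2, ℝ)) (F : Set ℍ) (h : ℍ → ℝ) (ε : ℝ)
    (hΓ : QU.SurfaceGroup Γ) (hF : QU.NiceDom Γ F) (hh : QU.Inv Γ h) (hC : QU.CD 2 h)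
    (hε : 0 < ε) : ∃ θ C : ℝ, 0 < θ ∧ 0 < C ∧ ∀ (T : ℝ) (g : SL(2, ℝ)), 0 ≤ T →
    ∫ v in (0 : ℝ)..1, Real.exp (θ * ∫ t in (0 : ℝ)..T, h ((g * lM v * aM t) • I)) ≤
      C * Real.exp (θ * ((∫ z in F, h z) / (volume F).toReal + ε) * T) := by
  obtain ⟨A1, A2, L1, L2, -, -, hL1, -, hhI, -, -, hL, -, -⟩ := hQDV Γ h hΓ hh hC
  obtain ⟨B, hB⟩ := (hGBD Γ ℝ L1 hΓ hL1).1
  obtain ⟨H₀, hH₀⟩ := (hGBD Γ ℝ _ hΓ hhI).1
  obtain ⟨τ₀, -, hτ₀⟩ := hQEQ Γ F h (ε / 4) hΓ hF hh (by positivity)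
  set M : ℝ := (∫ z in F, h z) / (volume F).toReal with hM
  have hB0 : 0 ≤ B := (norm_nonneg _).trans (hB 1)
  have hH₀0 : 0 ≤ H₀ := (norm_nonneg _).trans (hH₀ 1)
  obtain ⟨H, hH1, hH⟩ : ∃ H : ℝ, 1 ≤ H ∧ ∀ z, |h z| ≤ H := by
    refine ⟨H₀ + 1, by linarith, fun z => ?_⟩
    have h1 := hH₀ (toSL2R z)
    simp only [toSL2R_smul_I, Real.norm_eq_abs] at h1
    linarith
  have hH0 : 0 < H := by linarith
  obtain ⟨m, hm⟩ := exists_nat_gt (max 2 (Real.exp (max τ₀ (4 * B / ε))))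
  have hm2 : (2 : ℝ) < m := (le_max_left _ _).trans_lt hm
  have hm2' : 2 ≤ m := by
    have : 2 < m := by exact_mod_cast hm2
    omega
  have hm0 : (0 : ℝ) < m := by linarith
  have hlog : max τ₀ (4 * B / ε) < Real.log m :=
    (Real.lt_log_iff_exp_lt hm0).mpr ((le_max_right _ _).trans_lt hm)
  set τ : ℝ := Real.log m with hτdef
  have hτ1 : τ₀ ≤ τ := ((le_max_left _ _).trans_lt hlog).le
  have hτ2 : 4 * B / ε ≤ τ := ((le_max_right _ _).trans_lt hlog).le
  have hτ : 0 < τ := Real.log_pos (by linarith)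
  have hBτ : B ≤ ε * τ / 4 := by
    rw [div_le_iff₀ hε] at hτ2
    linarith
  obtain ⟨θ, hθ, hθ1, hθ2⟩ : ∃ θ : ℝ, 0 < θ ∧ θ * τ * H ≤ 1 ∧ θ * τ * H ^ 2 ≤ ε / 4 := by
    refine ⟨min (1 / (τ * H)) (ε / 4 / (τ * H ^ 2)), lt_min (by positivity) (by positivity), ?_, ?_⟩
    · have h1 := (le_div_iff₀ (show 0 < τ * H by positivity)).mp
        (min_le_left (1 / (τ * H)) (ε / 4 / (τ * H ^ 2)))
      linarith
    · have h1 := (le_div_iff₀ (show 0 < τ * H ^ 2 by positivity)).mp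
        (min_le_right (1 / (τ * H)) (ε / 4 / (τ * H ^ 2)))
      linarith
  -- the exponential moment for one block
  have hZ : ∀ g : SL(2, ℝ), ∫ v in (0 : ℝ)..1, Real.exp (θ * ∫ t in (0 : ℝ)..τ,
      h ((g * lM v * aM t) • I)) ≤ Real.exp (θ * τ * (M + ε / 4) + (θ * τ * H) ^ 2) := by
    intro g
    have hJc := QEX_Jc hGLC h hh.1 g τ
    have hJb : ∀ v, |∫ t in (0 : ℝ)..τ, h ((g * lM v * aM t) • I)| ≤ H * τ := fun v => by
      have h1 := QEX_Jb h g H 0 τ v hτ.le hH
      rwa [sub_zero] at h1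
    have h1 : ∀ v, Real.exp (θ * ∫ t in (0 : ℝ)..τ, h ((g * lM v * aM t) • I)) ≤
        (1 + (θ * τ * H) ^ 2) + θ * ∫ t in (0 : ℝ)..τ, h ((g * lM v * aM t) • I) := by
      intro v
      have h2 : |θ * ∫ t in (0 : ℝ)..τ, h ((g * lM v * aM t) • I)| ≤ θ * τ * H := by
        rw [abs_mul, abs_of_pos hθ]
        calc θ * |∫ t in (0 : ℝ)..τ, h ((g * lM v * aM t) • I)| ≤ θ * (H * τ) :=
              mul_le_mul_of_nonneg_left (hJb v) hθ.le
          _ = θ * τ * H := by ring
      have h3 := QEX_exp (h2.trans hθ1)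
      have h4 : (θ * ∫ t in (0 : ℝ)..τ, h ((g * lM v * aM t) • I)) ^ 2 ≤ (θ * τ * H) ^ 2 :=
        sq_le_sq' (by linarith [(abs_le.mp h2).1]) (abs_le.mp h2).2
      linarith
    have h2 : ∫ v in (0 : ℝ)..1, Real.exp (θ * ∫ t in (0 : ℝ)..τ, h ((g * lM v * aM t) • I)) ≤
        ∫ v in (0 : ℝ)..1, ((1 + (θ * τ * H) ^ 2) +
          θ * ∫ t in (0 : ℝ)..τ, h ((g * lM v * aM t) • I)) :=
      intervalIntegral.integral_mono_on zero_le_one
        ((Real.continuous_exp.comp (continuous_const.mul hJc)).intervalIntegrable _ _)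
        ((continuous_const.add (continuous_const.mul hJc)).intervalIntegrable _ _) fun v _ => h1 v
    rw [QEX_lin _ hJc] at h2
    have h3 := hτ₀ τ g hτ1
    unfold AV at h3
    rw [intervalIntegral.integral_const_mul] at h3
    have h4 : (∫ v in (0 : ℝ)..1, ∫ t in (0 : ℝ)..τ, h ((g * lM v * aM t) • I)) ≤
        τ * (M + ε / 4) := by
      rw [inv_mul_le_iff₀ hτ] at h3
      exact h3
    have h5 := mul_le_mul_of_nonneg_left h4 hθ.le
    have h6 := Real.add_one_le_exp (θ * τ * (M + ε / 4) + (θ * τ * H) ^ 2)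
    linarith
  have hrec := hQRC h m θ B (Real.exp (θ * τ * (M + ε / 4) + (θ * τ * H) ^ 2)) hh.1 hm2' hθ.le hB0
    (fun g v v' hv => QEX_dist hGLC h hh.1 L1 B hL hB m hm2' g v v' hv) hZ
  -- the base
  have hbase : Real.exp (θ * B) * Real.exp (θ * τ * (M + ε / 4) + (θ * τ * H) ^ 2) ≤
      Real.exp (θ * τ * (M + 3 * ε / 4)) := by
    rw [← Real.exp_add]
    refine Real.exp_le_exp.mpr ?_
    have h1 : θ * B ≤ θ * (ε * τ / 4) := mul_le_mul_of_nonneg_left hBτ hθ.le
    have h2 : (θ * τ * H) ^ 2 ≤ θ * τ * (ε / 4) := by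
      have h3 := mul_le_mul_of_nonneg_left hθ2 (show 0 ≤ θ * τ by positivity)
      calc (θ * τ * H) ^ 2 = θ * τ * (θ * τ * H ^ 2) := by ring
        _ ≤ θ * τ * (ε / 4) := h3
    nlinarith
  refine ⟨θ, Real.exp (θ * H * τ + θ * τ * |M + 3 * ε / 4|), hθ, Real.exp_pos _, ?_⟩
  intro T g hT
  set n : ℕ := ⌊T / τ⌋₊ with hn
  have hn1 : (n : ℝ) * τ ≤ T := by
    have h1 := Nat.floor_le (show 0 ≤ T / τ by positivity)
    rwa [le_div_iff₀ hτ] at h1
  have hn2 : T ≤ n * τ + τ := by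
    have h1 := (Nat.lt_floor_add_one (T / τ)).le
    rw [div_le_iff₀ hτ] at h1
    rw [hn]
    linarith
  have hcg := fun v => QEX_cont2 hGLC h hh.1 g v
  have h1 : ∀ v, Real.exp (θ * ∫ t in (0 : ℝ)..T, h ((g * lM v * aM t) • I)) ≤
      Real.exp (θ * H * τ) * Real.exp (θ * ∫ t in (0 : ℝ)..(n * τ), h ((g * lM v * aM t) • I)) := by
    intro v
    rw [← Real.exp_add]
    refine Real.exp_le_exp.mpr ?_
    have h2 : (∫ t in (0 : ℝ)..T, h ((g * lM v * aM t) • I)) =
        (∫ t in (0 : ℝ)..(n * τ), h ((g * lM v * aM t) • I)) +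
          ∫ t in (n * τ)..T, h ((g * lM v * aM t) • I) :=
      (intervalIntegral.integral_add_adjacent_intervals ((hcg v).intervalIntegrable _ _)
        ((hcg v).intervalIntegrable _ _)).symm
    have h3 := (abs_le.mp (QEX_Jb h g H (n * τ) T v hn1 hH)).2
    have h4 : H * (T - n * τ) ≤ H * τ := mul_le_mul_of_nonneg_left (by linarith) hH0.le
    rw [h2, mul_add]
    have h5 := mul_le_mul_of_nonneg_left (h3.trans h4) hθ.le
    linarith
  have hJ1 := QEX_Jc hGLC h hh.1 g T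
  have hJ2 := QEX_Jc hGLC h hh.1 g (n * τ)
  have h2 : ∫ v in (0 : ℝ)..1, Real.exp (θ * ∫ t in (0 : ℝ)..T, h ((g * lM v * aM t) • I)) ≤
      ∫ v in (0 : ℝ)..1, Real.exp (θ * H * τ) *
        Real.exp (θ * ∫ t in (0 : ℝ)..(n * τ), h ((g * lM v * aM t) • I)) :=
    intervalIntegral.integral_mono_on zero_le_one
      ((Real.continuous_exp.comp (continuous_const.mul hJ1)).intervalIntegrable _ _)
      ((continuous_const.mul (Real.continuous_exp.comp (continuous_const.mul hJ2))).intervalIntegrable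
        _ _) fun v _ => h1 v
  rw [intervalIntegral.integral_const_mul] at h2
  have h3 := hrec n g
  have h4 : (Real.exp (θ * B) * Real.exp (θ * τ * (M + ε / 4) + (θ * τ * H) ^ 2)) ^ n ≤
      Real.exp (n * (θ * τ * (M + 3 * ε / 4))) := by
    rw [Real.exp_nat_mul]
    exact pow_le_pow_left₀ (by positivity) hbase n
  have h5 : Real.exp (θ * H * τ) * Real.exp (n * (θ * τ * (M + 3 * ε / 4))) ≤
      Real.exp (θ * H * τ + θ * τ * |M + 3 * ε / 4|) * Real.exp (θ * (M + ε) * T) := by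
    rw [← Real.exp_add, ← Real.exp_add]
    refine Real.exp_le_exp.mpr ?_
    have h6 : (n * τ - T) * (M + 3 * ε / 4) ≤ τ * |M + 3 * ε / 4| := by
      refine (le_abs_self _).trans ?_
      rw [abs_mul]
      refine mul_le_mul_of_nonneg_right ?_ (abs_nonneg _)
      rw [abs_le]
      constructor <;> linarith
    have h7 := mul_le_mul_of_nonneg_left h6 hθ.le
    have h8 : θ * (M + 3 * ε / 4) * T ≤ θ * (M + ε) * T :=
      mul_le_mul_of_nonneg_right (mul_le_mul_of_nonneg_left (by linarith) hθ.le) hT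
    linarith
  calc ∫ v in (0 : ℝ)..1, Real.exp (θ * ∫ t in (0 : ℝ)..T, h ((g * lM v * aM t) • I)) ≤
      Real.exp (θ * H * τ) * ∫ v in (0 : ℝ)..1,
        Real.exp (θ * ∫ t in (0 : ℝ)..(n * τ), h ((g * lM v * aM t) • I)) := h2
    _ ≤ Real.exp (θ * H * τ) * Real.exp (n * (θ * τ * (M + 3 * ε / 4))) :=
      mul_le_mul_of_nonneg_left (h3.trans h4) (Real.exp_pos _).le
    _ ≤ _ := h5

theorem QEX (hGLC : GLC_stmt) (hGBD : GBD_stmt) (hQDV : QDV_stmt) (hESM : ESM_stmt)
    (hQEQ : QEQ_stmt) (hQRC : QRC_stmt) : QEX_stmt := by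
  intro Γ F h ε hΓ hF hh hε
  obtain ⟨m, hm⟩ := (QU.A_BDD Γ F h hΓ hF hh).1
  obtain ⟨h', hh', hC, hclose, -⟩ := hESM Γ h (-m) m (ε / 4) hΓ hh
    (fun z => abs_le.mp (hm z)) (by positivity)
  obtain ⟨θ, C, hθ, hCpos, hmain⟩ := QEX_core hGLC hGBD hQDV hQEQ hQRC Γ F h' (ε / 2) hΓ hF hh' hC
    (by positivity)
  refine ⟨θ, C, hθ, hCpos, ?_⟩
  intro T g hT
  -- the means
  have hmean : (∫ z in F, h' z) / (volume F).toReal ≤ (∫ z in F, h z) / (volume F).toReal + ε / 4 := by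
    obtain ⟨K, hK, hFK⟩ := hF.rel
    have hfin : volume F < ⊤ := (measure_mono hFK).trans_lt hK.measure_lt_top
    have hi : IntegrableOn h F := (hh.1.continuousOn.integrableOn_compact hK).mono_set hFK
    have hi' : IntegrableOn h' F := (hh'.1.continuousOn.integrableOn_compact hK).mono_set hFK
    have hic : IntegrableOn (fun _ : ℍ => ε / 4) F := integrableOn_const hfin.ne
    have h1 : ∫ z in F, h' z ≤ ∫ z in F, (h z + ε / 4) := by
      refine integral_mono hi' (hi.add hic) fun z => ?_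
      have := (abs_le.mp (hclose z)).2
      simp only
      linarith
    rw [integral_add hi hic, setIntegral_const, smul_eq_mul] at h1
    have h2 : (∫ z in F, h' z) / (volume F).toReal ≤
        ((∫ z in F, h z) + (volume F).toReal * (ε / 4)) / (volume F).toReal :=
      div_le_div_of_nonneg_right h1 ENNReal.toReal_nonneg
    refine h2.trans ?_
    rw [add_div]
    refine add_le_add le_rfl ?_
    rw [mul_div_right_comm]
    have h3 : (volume F).toReal / (volume F).toReal ≤ 1 := div_self_le_one _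
    nlinarith
  have h1 : ∀ v, Real.exp (θ * ∫ t in (0 : ℝ)..T, h ((g * lM v * aM t) • I)) ≤
      Real.exp (θ * (ε / 4) * T) *
        Real.exp (θ * ∫ t in (0 : ℝ)..T, h' ((g * lM v * aM t) • I)) := by
    intro v
    rw [← Real.exp_add]
    refine Real.exp_le_exp.mpr ?_
    have hc := QEX_cont2 hGLC h hh.1 g v
    have hc' := QEX_cont2 hGLC h' hh'.1 g v
    have h2 : ∫ t in (0 : ℝ)..T, h ((g * lM v * aM t) • I) ≤
        ∫ t in (0 : ℝ)..T, (h' ((g * lM v * aM t) • I) + ε / 4) := by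
      refine intervalIntegral.integral_mono_on hT (hc.intervalIntegrable _ _)
        ((hc'.add continuous_const).intervalIntegrable _ _) fun t _ => ?_
      have := (abs_le.mp (hclose ((g * lM v * aM t) • I))).1
      linarith
    rw [intervalIntegral.integral_add (hc'.intervalIntegrable _ _)
      (continuous_const.intervalIntegrable _ _), intervalIntegral.integral_const, sub_zero,
      smul_eq_mul] at h2
    have h3 := mul_le_mul_of_nonneg_left h2 hθ.le
    linarith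
  have hJ1 := QEX_Jc hGLC h hh.1 g T
  have hJ2 := QEX_Jc hGLC h' hh'.1 g T
  have h2 : ∫ v in (0 : ℝ)..1, Real.exp (θ * ∫ t in (0 : ℝ)..T, h ((g * lM v * aM t) • I)) ≤
      ∫ v in (0 : ℝ)..1, Real.exp (θ * (ε / 4) * T) *
        Real.exp (θ * ∫ t in (0 : ℝ)..T, h' ((g * lM v * aM t) • I)) :=
    intervalIntegral.integral_mono_on zero_le_one
      ((Real.continuous_exp.comp (continuous_const.mul hJ1)).intervalIntegrable _ _)
      ((continuous_const.mul (Real.continuous_exp.comp (continuous_const.mul hJ2))).intervalIntegrable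
        _ _) fun v _ => h1 v
  rw [intervalIntegral.integral_const_mul] at h2
  refine h2.trans ?_
  have h3 := hmain T g hT
  calc Real.exp (θ * (ε / 4) * T) * ∫ v in (0 : ℝ)..1,
        Real.exp (θ * ∫ t in (0 : ℝ)..T, h' ((g * lM v * aM t) • I)) ≤
      Real.exp (θ * (ε / 4) * T) *
        (C * Real.exp (θ * ((∫ z in F, h' z) / (volume F).toReal + ε / 2) * T)) :=
        mul_le_mul_of_nonneg_left h3 (Real.exp_pos _).le
    _ = C * Real.exp (θ * ((∫ z in F, h' z) / (volume F).toReal + ε / 2) * T +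
        θ * (ε / 4) * T) := by
        rw [Real.exp_add]
        ring
    _ ≤ C * Real.exp (θ * ((∫ z in F, h z) / (volume F).toReal + ε) * T) := by
        refine mul_le_mul_of_nonneg_left (Real.exp_le_exp.mpr ?_) hCpos.le
        have h4 := mul_le_mul_of_nonneg_left hmean (show 0 ≤ θ * T by positivity)
        linarith

end Pool.Agent.RS
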