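import Pool.Agent.helper29.RS.SpecK
import Pool.Agent.helper62.QU.All

/-!
# Row rs:QNT (MP_07c750_an): supports and layers
-/

set_option autoImplicit false

open scoped MatrixGroups ContDiff Topology UpperHalfPlane ComplexConjugate
open UpperHalfPlane MeasureTheory Filter Set

namespace Pool.Agent.RS

/-- the layers below `v`: lower bound -/
theorem QNT_low (n : ℕ) (hn : 0 < n) (v : ℝ) (h0 : 0 ≤ v) (h1 : v ≤ 1) :
    v ≤ (n : ℝ)⁻¹ + (n : ℝ)⁻¹ * ∑ j ∈ Finset.range n,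
      (if ((j : ℝ) + 1) ≤ n * v then (1 : ℝ) else 0) := by
  have hn' : (0 : ℝ) < n := by exact_mod_cast hn
  have hsub : Finset.range ⌊(n : ℝ) * v⌋₊ ⊆
      (Finset.range n).filter fun j : ℕ => ((j : ℝ) + 1) ≤ n * v := by
    intro j hj
    have hj' : j + 1 ≤ ⌊(n : ℝ) * v⌋₊ := Finset.mem_range.mp hj
    have h3 : ((j + 1 : ℕ) : ℝ) ≤ (n : ℝ) * v :=
      (Nat.le_floor_iff (by positivity)).mp hj'
    push_cast at h3
    refine Finset.mem_filter.mpr ⟨Finset.mem_range.mpr ?_, h3⟩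
    have h4 : (j : ℝ) + 1 ≤ n := h3.trans (by nlinarith)
    have h5 : j + 1 ≤ n := by exact_mod_cast h4
    omega
  have hcard := Finset.card_le_card hsub
  rw [Finset.card_range] at hcard
  have h6 : (n : ℝ) * v < ⌊(n : ℝ) * v⌋₊ + 1 := Nat.lt_floor_add_one _
  have h7 : (⌊(n : ℝ) * v⌋₊ : ℝ) ≤
      ∑ j ∈ Finset.range n, (if ((j : ℝ) + 1) ≤ n * v then (1 : ℝ) else 0) := by
    rw [Finset.sum_boole]
    exact_mod_cast hcard
  rw [← mul_one_add, ← div_eq_inv_mul, le_div_iff₀ hn']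
  linarith

/-- the layers below `v`: upper bound -/
theorem QNT_up (n : ℕ) (hn : 0 < n) (x : ℝ) (hx : 0 ≤ x) :
    (n : ℝ)⁻¹ * ∑ j ∈ Finset.range n, (if (j : ℝ) < n * x then (1 : ℝ) else 0) ≤
      x + (n : ℝ)⁻¹ := by
  have hn' : (0 : ℝ) < n := by exact_mod_cast hn
  have hsub : ((Finset.range n).filter fun j : ℕ => (j : ℝ) < n * x) ⊆
      Finset.range ⌈(n : ℝ) * x⌉₊ := by
    intro j hj
    have h1 := (Finset.mem_filter.mp hj).2
    refine Finset.mem_range.mpr ?_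
    exact_mod_cast h1.trans_le (Nat.le_ceil _)
  have hcard := Finset.card_le_card hsub
  rw [Finset.card_range] at hcard
  have h6 : (⌈(n : ℝ) * x⌉₊ : ℝ) < n * x + 1 := Nat.ceil_lt_add_one (by positivity)
  have h7 : ∑ j ∈ Finset.range n, (if (j : ℝ) < n * x then (1 : ℝ) else 0) ≤
      (⌈(n : ℝ) * x⌉₊ : ℝ) := by
    rw [Finset.sum_boole]
    exact_mod_cast hcard
  rw [← div_eq_inv_mul, div_le_iff₀ hn']
  have h8 : (x + (n : ℝ)⁻¹) * n = n * x + 1 := by field_simp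
  rw [h8]
  linarith

/-- the layer function -/
noncomputable def QNT_lay (n j : ℕ) (x : ℝ) : ℝ := min 1 (max 0 (n * x - j))

theorem QNT_lay_nonneg (n j : ℕ) (x : ℝ) : 0 ≤ QNT_lay n j x :=
  le_min zero_le_one (le_max_left _ _)

theorem QNT_lay_one (n j : ℕ) (x : ℝ) (h : (j : ℝ) + 1 ≤ n * x) : QNT_lay n j x = 1 :=
  min_eq_left (le_max_of_le_right (by linarith))

theorem QNT_lay_sq (n j : ℕ) (x : ℝ) :
    QNT_lay n j x ^ 2 ≤ if (j : ℝ) < n * x then (1 : ℝ) else 0 := by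
  split_ifs with h
  · exact pow_le_one₀ (QNT_lay_nonneg n j x) (min_le_left _ _)
  · have h1 : QNT_lay n j x = 0 := by
      unfold QNT_lay
      rw [max_eq_left (by linarith), min_eq_right zero_le_one]
    rw [h1]
    norm_num

theorem QNT_lay_cont (n j : ℕ) : Continuous (QNT_lay n j) := by
  unfold QNT_lay
  fun_prop

theorem QNT_pt : Continuous fun p : ℝ × ℝ => pt p.1 p.2 := by
  rw [isEmbedding_coe.continuous_iff]
  have h1 : (((↑) : ℍ → ℂ) ∘ fun p : ℝ × ℝ => pt p.1 p.2) = fun p : ℝ × ℝ =>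
      (p.1 : ℂ) + (Real.exp p.2 : ℝ) * Complex.I := by
    funext p
    apply Complex.ext
    · simp [pt, Complex.exp_ofReal_re]
    · simp [pt, Complex.exp_ofReal_re]
  rw [h1]
  fun_prop

theorem QNT_box (O : Set ℍ) (hO : O ∈ 𝓝 I) : ∃ w0 : ℝ, 0 < w0 ∧ ∀ z : ℍ, |z.re| ≤ w0 →
    |Real.log z.im| ≤ w0 → z ∈ O := by
  have h0 : pt (0 : ℝ × ℝ).1 (0 : ℝ × ℝ).2 = I := by
    apply UpperHalfPlane.ext
    apply Complex.ext
    · simp [pt]
    · simp [pt]
  have h1 : Tendsto (fun p : ℝ × ℝ => pt p.1 p.2) (𝓝 0) (𝓝 (pt (0 : ℝ × ℝ).1 (0 : ℝ × ℝ).2)) :=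
    QNT_pt.continuousAt (x := (0 : ℝ × ℝ))
  rw [h0] at h1
  have h2 := h1 hO
  obtain ⟨ε, hε, h3⟩ := Metric.mem_nhds_iff.mp h2
  refine ⟨ε / 2, by positivity, ?_⟩
  intro z hz1 hz2
  have h4 : ((z.re, Real.log z.im) : ℝ × ℝ) ∈ Metric.ball (0 : ℝ × ℝ) ε := by
    rw [mem_ball_zero_iff, Prod.norm_def]
    refine max_lt ?_ ?_
    · simp only [Real.norm_eq_abs]
      linarith
    · simp only [Real.norm_eq_abs]
      linarith
  have h5 := h3 h4
  have h6 : pt z.re (Real.log z.im) = z := by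
    apply UpperHalfPlane.ext
    apply Complex.ext
    · simp [pt]
    · simp [pt, Real.exp_log z.im_pos]
  have h7 : pt z.re (Real.log z.im) ∈ O := h5
  rwa [h6] at h7

theorem QNT (_hGLC : GLC_stmt) (hGFD : GFD_stmt) (hGBD : GBD_stmt) (_hGWB : GWB_stmt)
    (_hCV1 : CV1_stmt) (hFL0 : FL0_stmt) : QNT_stmt := by
  intro Γ F V hΓ hF hV hV0 hV1 η hη
  have hsmulc : Continuous fun g : SL(2, ℝ) => g • (I : ℍ) := continuous_id.smul continuous_const
  -- uniform continuity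
  have hVG : InvG Γ (fun g : SL(2, ℝ) => V (g • I)) :=
    ⟨hV.1.comp hsmulc, fun γ g => by
      simp only [mul_smul]
      exact hV.2 γ (g • I)⟩
  obtain ⟨U, hU, hUV⟩ := (hGBD Γ ℝ _ hΓ hVG).2 (η / 2) (by positivity)
  have hI1 : (toSL2R I : SL(2, ℝ)) = 1 := by
    ext i j
    fin_cases i <;> fin_cases j <;> simp [toSL2R_apply]
  have hO : {z : ℍ | toSL2R z ∈ U} ∈ 𝓝 (I : ℍ) := by
    have h1 := (continuous_toSL2R).continuousAt (x := (I : ℍ))
    unfold ContinuousAt at h1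
    rw [hI1] at h1
    exact h1 hU
  obtain ⟨w0, hw0, hbox⟩ := QNT_box _ hO
  refine ⟨w0, hw0, ?_⟩
  intro w c r q hw hww0 hc hq hq0 φ hφ
  -- the support
  have hsupp : ∀ (g : SL(2, ℝ)) (z : ℍ), c z ≠ 0 → |V (g • z) - V (g • I)| ≤ η / 2 := by
    intro g z hz
    obtain ⟨h1, h2⟩ := hc.2 z hz
    have h3 : toSL2R z ∈ U := hbox z (h1.trans hww0) (h2.trans hww0)
    have h4 := hUV g _ h3
    rw [mul_smul, toSL2R_smul_I, Real.norm_eq_abs] at h4
    exact h4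
  have hTst := hFL0.2.1 w r c hc
  have hpkc : Continuous (pk r c) :=
    ((QU.A_CA1 ℂ).1 _).mp ((QU.A_CA1 ℂ).2.1 _ 0 ∞ (by exact_mod_cast zero_le) hTst.1)
  have hWG : ∀ u : ℍ → ℂ, InvC Γ u → InvG Γ (Wf (pk r c) u) := fun u hu =>
    hFL0.2.2 Γ (pk r c) u hpkc hTst.2 hu
  obtain ⟨⟨hdm, hdv, hdf, -⟩, hE⟩ := hGFD Γ F hΓ hF
  have : IsFiniteMeasure (mG.restrict (dG F)) := ⟨by
    rw [Measure.restrict_apply_univ]
    exact hdf⟩
  have : IsFiniteMeasure ((volume : Measure ℍ).restrict F) := ⟨by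
    rw [Measure.restrict_apply_univ, ← hdv]
    exact hdf⟩
  have hint : ∀ u : SL(2, ℝ) → ℝ, InvG Γ u → Integrable u (mG.restrict (dG F)) := by
    intro u hu
    obtain ⟨m, hm⟩ := (hGBD Γ ℝ u hΓ hu).1
    exact Integrable.of_bound hu.1.aestronglyMeasurable m (Eventually.of_forall hm)
  have hintF : ∀ u : ℍ → ℝ, Continuous u → (∀ (γ : Γ) (z : ℍ), u (γ • z) = u z) →
      Integrable u ((volume : Measure ℍ).restrict F) := by
    intro u hu hu'
    have h1 : InvG Γ (fun g : SL(2, ℝ) => u (g • I)) :=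
      ⟨hu.comp hsmulc, fun γ g => by
        simp only [mul_smul]
        exact hu' γ (g • I)⟩
    obtain ⟨m, hm⟩ := (hGBD Γ ℝ _ hΓ h1).1
    refine Integrable.of_bound hu.aestronglyMeasurable m (Eventually.of_forall fun z => ?_)
    have h2 := hm (toSL2R z)
    rwa [toSL2R_smul_I] at h2
  -- the layers
  obtain ⟨n, hn⟩ := exists_nat_gt (4 / η)
  have hn' : (0 : ℝ) < n := lt_trans (by positivity) hn
  have hn0 : 0 < n := by exact_mod_cast hn'
  have hninv : (n : ℝ)⁻¹ ≤ η / 4 := by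
    rw [inv_le_comm₀ hn' (by positivity), inv_div]
    exact hn.le
  let χ : ℕ → ℍ → ℝ := fun j z => QNT_lay n j (V z + η / 2)
  have hχc : ∀ j, Continuous (χ j) := fun j =>
    (QNT_lay_cont n j).comp (hV.1.add continuous_const)
  have hχi : ∀ j (γ : Γ) (z : ℍ), χ j (γ • z) = χ j z := fun j γ z => by
    show QNT_lay n j (V (γ • z) + η / 2) = QNT_lay n j (V z + η / 2)
    rw [hV.2]
  have hφj : ∀ j, InvC Γ (fun z => ((χ j z : ℝ) : ℂ) * φ z) := fun j =>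
    ⟨(Complex.continuous_ofReal.comp (hχc j)).mul hφ.1, fun γ z => by
      simp only [hχi, hφ.2]⟩
  -- pointwise bound on the group
  have hpt : ∀ g : SL(2, ℝ), V (g • I) * ‖Wf (pk r c) φ g‖ ^ 2 ≤
      (n : ℝ)⁻¹ * ‖Wf (pk r c) φ g‖ ^ 2 + (n : ℝ)⁻¹ * ∑ j ∈ Finset.range n,
        ‖Wf (pk r c) (fun z => ((χ j z : ℝ) : ℂ) * φ z) g‖ ^ 2 := by
    intro g
    have h1 := QNT_low n hn0 (V (g • I)) (hV0 _) (hV1 _)
    have h2 : 0 ≤ ‖Wf (pk r c) φ g‖ ^ 2 := by positivity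
    have h3 := mul_le_mul_of_nonneg_right h1 h2
    refine h3.trans ?_
    rw [add_mul, mul_assoc, Finset.sum_mul]
    refine add_le_add le_rfl (mul_le_mul_of_nonneg_left (Finset.sum_le_sum fun j _ => ?_)
      (by positivity))
    split_ifs with hj
    · rw [one_mul]
      refine le_of_eq ?_
      congr 2
      unfold Wf
      refine integral_congr_ae (Eventually.of_forall fun z => ?_)
      by_cases hz : c z = 0
      · simp [pk, hz]
      · have h4 := abs_le.mp (hsupp g z hz)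
        have h5 : χ j (g • z) = 1 := by
          refine QNT_lay_one n j _ ?_
          have h6 : (n : ℝ) * V (g • I) ≤ n * (V (g • z) + η / 2) :=
            mul_le_mul_of_nonneg_left (by linarith [h4.1]) hn'.le
          linarith
        simp only [h5, Complex.ofReal_one, one_mul]
    · rw [zero_mul]
      positivity
  -- integrate
  have hWφ := hWG φ hφ
  have hI0 : Integrable (fun g => ‖Wf (pk r c) φ g‖ ^ 2) (mG.restrict (dG F)) :=
    hint _ ⟨hWφ.1.norm.pow 2, fun γ g => by simp only [hWφ.2]⟩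
  have hIj : ∀ j, Integrable (fun g => ‖Wf (pk r c) (fun z => ((χ j z : ℝ) : ℂ) * φ z) g‖ ^ 2)
      (mG.restrict (dG F)) := fun j =>
    hint _ ⟨(hWG _ (hφj j)).1.norm.pow 2, fun γ g => by simp only [(hWG _ (hφj j)).2]⟩
  have hIV : Integrable (fun g : SL(2, ℝ) => V (g • I) * ‖Wf (pk r c) φ g‖ ^ 2)
      (mG.restrict (dG F)) :=
    hint _ ⟨hVG.1.mul (hWφ.1.norm.pow 2), fun γ g => by
      have h1 := hVG.2 γ g
      simp only at h1
      simp only [hWφ.2, h1]⟩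
  have hA : iR F (fun g => V (g • I) * ‖Wf (pk r c) φ g‖ ^ 2) ≤
      (n : ℝ)⁻¹ * qn F c r φ + (n : ℝ)⁻¹ * ∑ j ∈ Finset.range n,
        qn F c r (fun z => ((χ j z : ℝ) : ℂ) * φ z) := by
    unfold iR qn iR
    have h1 : ∫ g in dG F, ((n : ℝ)⁻¹ * ‖Wf (pk r c) φ g‖ ^ 2 +
        (n : ℝ)⁻¹ * ∑ j ∈ Finset.range n,
          ‖Wf (pk r c) (fun z => ((χ j z : ℝ) : ℂ) * φ z) g‖ ^ 2) ∂mG =
        (n : ℝ)⁻¹ * (∫ g in dG F, ‖Wf (pk r c) φ g‖ ^ 2 ∂mG) + (n : ℝ)⁻¹ *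
        ∑ j ∈ Finset.range n, ∫ g in dG F,
          ‖Wf (pk r c) (fun z => ((χ j z : ℝ) : ℂ) * φ z) g‖ ^ 2 ∂mG := by
      rw [integral_add (hI0.const_mul _) ((integrable_finsetSum _ fun j _ => hIj j).const_mul _),
        integral_const_mul, integral_const_mul, integral_finsetSum _ fun j _ => hIj j]
    rw [← h1]
    exact integral_mono hIV ((hI0.const_mul _).add
      ((integrable_finsetSum _ fun j _ => hIj j).const_mul _)) hpt
  -- the norms of the layers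
  have hB : (n : ℝ)⁻¹ * ∑ j ∈ Finset.range n, nn F (fun z => ((χ j z : ℝ) : ℂ) * φ z) ≤
      (∫ z in F, V z * ‖φ z‖ ^ 2) + (η / 2 + (n : ℝ)⁻¹) * nn F φ := by
    unfold nn
    have hi0 : Integrable (fun z => ‖φ z‖ ^ 2) ((volume : Measure ℍ).restrict F) :=
      hintF _ (hφ.1.norm.pow 2) fun γ z => by simp only [hφ.2]
    have hiV : Integrable (fun z => V z * ‖φ z‖ ^ 2) ((volume : Measure ℍ).restrict F) :=
      hintF _ (hV.1.mul (hφ.1.norm.pow 2)) fun γ z => by simp only [hφ.2, hV.2]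
    have hij : ∀ j, Integrable (fun z => ‖((χ j z : ℝ) : ℂ) * φ z‖ ^ 2)
        ((volume : Measure ℍ).restrict F) := fun j =>
      hintF _ ((hφj j).1.norm.pow 2) fun γ z => by simp only [hχi, hφ.2]
    rw [← integral_finsetSum _ fun j _ => hij j, ← integral_const_mul, ← integral_const_mul,
      ← integral_add hiV (hi0.const_mul _)]
    refine integral_mono ((integrable_finsetSum _ fun j _ => hij j).const_mul _)
      (hiV.add (hi0.const_mul _)) fun z => ?_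
    have h1 := QNT_up n hn0 (V z + η / 2) (by have := hV0 z; positivity)
    have h2 : ∀ j, ‖((χ j z : ℝ) : ℂ) * φ z‖ ^ 2 = χ j z ^ 2 * ‖φ z‖ ^ 2 := by
      intro j
      rw [norm_mul, mul_pow, Complex.norm_real, Real.norm_eq_abs, sq_abs]
    simp only [h2]
    rw [← Finset.sum_mul, ← mul_assoc]
    have h3 : (n : ℝ)⁻¹ * ∑ j ∈ Finset.range n, χ j z ^ 2 ≤ V z + η / 2 + (n : ℝ)⁻¹ :=
      (mul_le_mul_of_nonneg_left (Finset.sum_le_sum fun j _ => QNT_lay_sq n j (V z + η / 2))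
        (by positivity)).trans h1
    have h4 := mul_le_mul_of_nonneg_right h3 (show 0 ≤ ‖φ z‖ ^ 2 by positivity)
    refine h4.trans (le_of_eq ?_)
    ring
  have hnn : 0 ≤ nn F φ := by
    unfold nn
    exact integral_nonneg fun z => by positivity
  have h1 : qn F c r φ ≤ q * nn F φ := hq φ hφ
  have h2 : ∑ j ∈ Finset.range n, qn F c r (fun z => ((χ j z : ℝ) : ℂ) * φ z) ≤
      q * ∑ j ∈ Finset.range n, nn F (fun z => ((χ j z : ℝ) : ℂ) * φ z) := by
    rw [Finset.mul_sum]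
    exact Finset.sum_le_sum fun j _ => hq _ (hφj j)
  have hni : 0 ≤ (n : ℝ)⁻¹ := by positivity
  calc iR F (fun g => V (g • I) * ‖Wf (pk r c) φ g‖ ^ 2) ≤
      (n : ℝ)⁻¹ * qn F c r φ + (n : ℝ)⁻¹ * ∑ j ∈ Finset.range n,
        qn F c r (fun z => ((χ j z : ℝ) : ℂ) * φ z) := hA
    _ ≤ (n : ℝ)⁻¹ * (q * nn F φ) + (n : ℝ)⁻¹ *
        (q * ∑ j ∈ Finset.range n, nn F (fun z => ((χ j z : ℝ) : ℂ) * φ z)) :=
      add_le_add (mul_le_mul_of_nonneg_left h1 hni) (mul_le_mul_of_nonneg_left h2 hni)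
    _ = q * ((n : ℝ)⁻¹ * nn F φ + (n : ℝ)⁻¹ *
        ∑ j ∈ Finset.range n, nn F (fun z => ((χ j z : ℝ) : ℂ) * φ z)) := by ring
    _ ≤ q * ((∫ z in F, V z * ‖φ z‖ ^ 2) + η * nn F φ) := by
      refine mul_le_mul_of_nonneg_left ?_ hq0
      have h3 : (n : ℝ)⁻¹ * nn F φ ≤ η / 4 * nn F φ := mul_le_mul_of_nonneg_right hninv hnn
      have h4 : (η / 2 + (n : ℝ)⁻¹) * nn F φ ≤ (η / 2 + η / 4) * nn F φ :=
        mul_le_mul_of_nonneg_right (by linarith) hnn
      linarith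

end Pool.Agent.RS
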